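import Mathlib

/-!
# The field of `p`-adic numbers embeds in the complex numbers
-/

set_option autoImplicit false

open Cardinal

namespace Pool.Agent.SpFFT

theorem padic_card (p : ℕ) [Fact p.Prime] : #ℚ_[p] = 𝔠 := by
  refine le_antisymm ?_ (continuum_le_cardinal_of_nontriviallyNormedField ℚ_[p])
  have h1 : #(CauSeq ℚ (padicNorm p)) ≤ 𝔠 := by
    have h2 : #(CauSeq ℚ (padicNorm p)) ≤ #(ℕ → ℚ) :=
      Cardinal.mk_le_of_injective (f := fun f : CauSeq ℚ (padicNorm p) => (f : ℕ → ℚ))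
        Subtype.val_injective
    refine h2.trans ?_
    rw [← Cardinal.power_def, Cardinal.mk_eq_aleph0 ℚ, Cardinal.mk_nat,
      Cardinal.aleph0_power_aleph0]
  exact (Cardinal.mk_le_of_surjective
    (f := fun f : CauSeq ℚ (padicNorm p) => (CauSeq.Completion.mk f : ℚ_[p]))
    Quotient.mk_surjective).trans h1

theorem exists_padic_emb (p : ℕ) [Fact p.Prime] : Nonempty (ℚ_[p] →+* ℂ) := by
  have h4 : #(AlgebraicClosure ℚ_[p]) ≤ 𝔠 := by
    refine (Algebra.IsAlgebraic.cardinalMk_le_max ℚ_[p] (AlgebraicClosure ℚ_[p])).trans ?_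
    exact max_le (padic_card p).le Cardinal.aleph0_le_continuum
  have h5 : 𝔠 ≤ #(AlgebraicClosure ℚ_[p]) := by
    rw [← padic_card p]
    exact Cardinal.mk_le_of_injective
      (f := algebraMap ℚ_[p] (AlgebraicClosure ℚ_[p])) (RingHom.injective _)
  have h6 : #(AlgebraicClosure ℚ_[p]) = #ℂ := by
    rw [Cardinal.mk_complex]
    exact le_antisymm h4 h5
  have h7 : CharZero (AlgebraicClosure ℚ_[p]) := charZero_of_injective_ringHom
    (f := algebraMap ℚ_[p] (AlgebraicClosure ℚ_[p])) (RingHom.injective _)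
  obtain ⟨φ⟩ := IsAlgClosed.ringEquiv_of_equiv_of_charZero (K := AlgebraicClosure ℚ_[p])
    (L := ℂ) (by rw [h6, Cardinal.mk_complex]; exact Cardinal.aleph0_lt_continuum)
    (Cardinal.eq.1 h6)
  exact ⟨(φ : AlgebraicClosure ℚ_[p] →+* ℂ).comp (algebraMap ℚ_[p] (AlgebraicClosure ℚ_[p]))⟩

end Pool.Agent.SpFFT
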