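import Mathlib

/-!
# Extension of alternating forms to the complex numbers
-/

set_option autoImplicit false

namespace Pool.Agent.SpFFT

open Module

variable {R : Type} [CommRing R] [Algebra R ℂ] {H H' Q : Type} [AddCommGroup H] [Module R H]
  [AddCommGroup H'] [Module ℂ H'] [Fintype Q]

/-- An alternating form with complex values on a free module extends to the complex vector space
with the same basis. -/
theorem exists_ext (b : Basis Q R H) (c : Basis Q ℂ H') (em : H → H')
    (hem : ∀ x q, c.repr (em x) q = algebraMap R ℂ (b.repr x q)) {k : ℕ}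
    (F : H [⋀^Fin k]→ₗ[R] ℂ) :
    ∃ G : H' [⋀^Fin k]→ₗ[ℂ] ℂ, ∀ v : Fin k → H, G (fun i => em (v i)) = F v := by
  classical
  let g : MultilinearMap ℂ (fun _ : Fin k => H') ℂ := ∑ q : Fin k → Q, F (fun i => b (q i)) •
    (MultilinearMap.mkPiAlgebra ℂ (Fin k) ℂ).compLinearMap (fun i => c.coord (q i))
  have hg : ∀ w, g w = ∑ q : Fin k → Q, F (fun i => b (q i)) * ∏ i, c.repr (w i) (q i) := by
    intro w
    change (∑ q : Fin k → Q, F (fun i => b (q i)) •
      (MultilinearMap.mkPiAlgebra ℂ (Fin k) ℂ).compLinearMap (fun i => c.coord (q i))) w = _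
    rw [sum_apply]
    exact Finset.sum_congr rfl fun q _ => rfl
  refine ⟨{ g with map_eq_zero_of_eq' := ?_ }, fun v => ?_⟩
  · intro w i i' hw hi
    change g w = 0
    have h1 : g w = -g w := by
      conv_lhs => rw [hg w]
      rw [hg w, ← Finset.sum_neg_distrib]
      refine Fintype.sum_equiv (Equiv.arrowCongr (Equiv.swap i i') (Equiv.refl Q)) _ _ fun q => ?_
      have h2 : (fun l => b (((Equiv.swap i i').arrowCongr (Equiv.refl Q)) q l)) =
          (fun l => b (q l)) ∘ Equiv.swap i i' := by
        funext l
        simp [Equiv.arrowCongr]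
      rw [h2, AlternatingMap.map_swap _ _ hi, neg_mul, neg_neg]
      congr 1
      refine Fintype.prod_equiv (Equiv.swap i i') _ _ fun l => ?_
      have h3 : w (Equiv.swap i i' l) = w l := by
        rcases eq_or_ne l i with rfl | h4
        · rw [Equiv.swap_apply_left, hw]
        rcases eq_or_ne l i' with rfl | h5
        · rw [Equiv.swap_apply_right, hw]
        rw [Equiv.swap_apply_of_ne_of_ne h4 h5]
      rw [h3]
      simp [Equiv.arrowCongr]
    have h2 : (2 : ℂ) * g w = 0 := by linear_combination h1
    exact (mul_eq_zero.1 h2).resolve_left two_ne_zero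
  · change g (fun i => em (v i)) = F v
    rw [hg]
    have h1 : v = fun i => ∑ q, b.repr (v i) q • b q := by
      funext i
      exact (b.sum_repr (v i)).symm
    have h2 : F v = F.toMultilinearMap (fun i => ∑ q, b.repr (v i) q • b q) := by
      rw [← h1]
      rfl
    rw [h2, MultilinearMap.map_sum]
    refine Finset.sum_congr rfl fun q _ => ?_
    rw [MultilinearMap.map_smul_univ, Algebra.smul_def, map_prod, mul_comm]
    congr 1
    exact Finset.prod_congr rfl fun i _ => hem _ _

end Pool.Agent.SpFFT
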