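import Mathlib

/-!
# The symplectic Lie algebra is spanned by the elementary operators
-/

set_option autoImplicit false

universe u v

namespace Pool.Agent.SpFFT

open Module

variable {k : Type u} [Field k] {V : Type v} [AddCommGroup V] [Module k V]

/-- The operator `x ↦ B(x, u) w + B(x, w) u`. -/
def tw (B : V →ₗ[k] V →ₗ[k] k) (u w : V) : End k V :=
  (B.flip u).smulRight w + (B.flip w).smulRight u

theorem tw_apply (B : V →ₗ[k] V →ₗ[k] k) (u w x : V) : tw B u w x = B x u • w + B x w • u := rfl

theorem tw_symm (B : V →ₗ[k] V →ₗ[k] k) (u w : V) : tw B u w = tw B w u := add_comm _ _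

theorem tw_sum {ι : Type*} (B : V →ₗ[k] V →ₗ[k] k) (s : Finset ι) (c : ι → k) (f : ι → V)
    (w : V) : tw B (∑ i ∈ s, c i • f i) w = ∑ i ∈ s, c i • tw B (f i) w := by
  refine LinearMap.ext fun x => ?_
  rw [tw_apply, map_sum, LinearMap.sum_apply, Finset.sum_smul, Finset.smul_sum,
    ← Finset.sum_add_distrib]
  refine Finset.sum_congr rfl fun i _ => ?_
  rw [map_smul, LinearMap.smul_apply, tw_apply, smul_eq_mul]
  module

/-- A subspace which contains the elementary operators for the vectors of a basis contains the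
symplectic Lie algebra. -/
theorem skew_mem [CharZero k] {ι : Type} [Fintype ι] (b : Basis ι k V) {B : V →ₗ[k] V →ₗ[k] k}
    (skew : ∀ x y, B x y = -B y x) (hnd : ∀ x, (∀ y, B x y = 0) → x = 0)
    (N : Submodule k (End k V)) (hN : ∀ i j, tw B (b i) (b j) ∈ N) (D : End k V)
    (hD : ∀ x y, B (D x) y + B x (D y) = 0) : D ∈ N := by
  have : FiniteDimensional k V := Module.Finite.of_basis b
  -- all elementary operators are in `N`
  have hN' : ∀ u w, tw B u w ∈ N := by
    intro u w
    rw [← b.sum_repr u, tw_sum]
    refine N.sum_mem fun i _ => N.smul_mem _ ?_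
    rw [tw_symm, ← b.sum_repr w, tw_sum]
    refine N.sum_mem fun j _ => N.smul_mem _ ?_
    rw [tw_symm]
    exact hN i j
  -- dual basis
  have hinj : Function.Injective B := by
    rw [← LinearMap.ker_eq_bot, LinearMap.ker_eq_bot']
    exact fun x hx => hnd x fun y => by rw [hx, LinearMap.zero_apply]
  have hsurj : Function.Surjective B := by
    have h := LinearMap.injective_iff_surjective_of_finrank_eq_finrank
      (Subspace.dual_finrank_eq (K := k) (V := V)).symm (f := B)
    exact h.1 hinj
  choose c hc using fun i => hsurj (b.coord i)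
  have hx : ∀ x, x = ∑ i, (-B x (c i)) • b i := by
    intro x
    conv_lhs => rw [← b.sum_repr x]
    refine Finset.sum_congr rfl fun i _ => ?_
    rw [skew, neg_neg, hc i]
    rfl
  have h1 : ∀ x, D x = ∑ i, (-B x (c i)) • D (b i) := by
    intro x
    conv_lhs => rw [hx x]
    rw [map_sum]
    exact Finset.sum_congr rfl fun i _ => map_smul _ _ _
  have h2 : ∀ x, D x = ∑ i, (-B x (D (b i))) • c i := by
    intro x
    refine sub_eq_zero.1 (hnd _ fun y => ?_)
    rw [map_sub, LinearMap.sub_apply, map_sum, LinearMap.sum_apply]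
    have h3 : B (D x) y = -B x (D y) := by linear_combination hD x y
    rw [h3, h1 y, map_sum, ← Finset.sum_neg_distrib, ← Finset.sum_sub_distrib]
    refine Finset.sum_eq_zero fun i _ => ?_
    rw [map_smul, map_smul, LinearMap.smul_apply, smul_eq_mul, smul_eq_mul, skew (c i) y]
    ring
  have h3 : (2 : k) • D = ∑ i, (-1 : k) • tw B (c i) (D (b i)) := by
    refine LinearMap.ext fun x => ?_
    rw [LinearMap.smul_apply, two_smul]
    conv_lhs =>
      congr
      · rw [h1 x]
      · rw [h2 x]
    rw [← Finset.sum_add_distrib, LinearMap.sum_apply]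
    refine Finset.sum_congr rfl fun i _ => ?_
    rw [LinearMap.smul_apply, tw_apply]
    module
  have h4 : (2 : k) • D ∈ N := by
    rw [h3]
    exact N.sum_mem fun i _ => N.smul_mem _ (hN' _ _)
  have h5 := N.smul_mem (2 : k)⁻¹ h4
  rwa [smul_smul, inv_mul_cancel₀ two_ne_zero, one_smul] at h5

end Pool.Agent.SpFFT
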