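import Pool.Agent.SpFFT.Expand
import Pool.Agent.SpFFT.ExtForm
import Pool.Agent.SpFFT.Skew
import Pool.Agent.HTate.FftDefs

/-!
# The first fundamental theorem over a domain, forms with complex values
-/

set_option autoImplicit false
set_option linter.unusedSectionVars false

namespace Pool.Agent.SpFFT

open Module
open Pool.Agent.HTate (prodForm altForm)
open Pool.Agent.TateOdd (dg dg_apply)

section One

variable {R : Type} [CommRing R] [IsDomain R] [Algebra R ℂ] {M ι : Type} [AddCommGroup M]
  [Module R M] [Fintype ι] [DecidableEq ι] (b : Basis ι R M) (e : M →ₗ[R] M →ₗ[R] R)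

/-- The extension of a bilinear form to the complex numbers. -/
noncomputable def bc : (ι → ℂ) →ₗ[ℂ] (ι → ℂ) →ₗ[ℂ] ℂ :=
  Matrix.toLinearMap₂' ℂ (Matrix.of fun i j => algebraMap R ℂ (e (b i) (b j)))

theorem bc_apply (x y : ι → ℂ) :
    bc b e x y = ∑ i, x i * ∑ j, algebraMap R ℂ (e (b i) (b j)) * y j := by
  unfold bc
  rw [Matrix.toLinearMap₂'_apply']
  rfl

/-- The embedding of the lattice. -/
noncomputable def e1 (x : M) : ι → ℂ := fun i => algebraMap R ℂ (b.repr x i)

theorem e1_add (x y : M) : e1 b (x + y) = e1 b x + e1 b y := by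
  funext i
  unfold e1
  rw [map_add, Finsupp.add_apply, map_add]
  rfl

theorem e1_smul (r : R) (x : M) : e1 b (r • x) = algebraMap R ℂ r • e1 b x := by
  funext i
  unfold e1
  rw [map_smul, Finsupp.smul_apply, smul_eq_mul, map_mul]
  rfl

theorem e1_basis (i : ι) : e1 b (b i) = Pi.basisFun ℂ ι i := by
  funext j
  unfold e1
  rw [b.repr_self, Pi.basisFun_apply, Finsupp.single_apply, Pi.single_apply]
  by_cases h : i = j
  · rw [if_pos h, if_pos h.symm, map_one]
  · rw [if_neg h, if_neg (Ne.symm h), map_zero]

theorem bc_e1 (x y : M) : bc b e (e1 b x) (e1 b y) = algebraMap R ℂ (e x y) := by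
  rw [bc_apply]
  have h1 : e x y = ∑ i, b.repr x i * ∑ j, e (b i) (b j) * b.repr y j := by
    conv_lhs => rw [← b.sum_repr x]
    have h2 : e (∑ i, b.repr x i • b i) = ∑ i, b.repr x i • e (b i) := by
      rw [map_sum]
      exact Finset.sum_congr rfl fun i _ => map_smul _ _ _
    rw [h2, LinearMap.sum_apply]
    refine Finset.sum_congr rfl fun i _ => ?_
    rw [LinearMap.smul_apply, smul_eq_mul]
    congr 1
    conv_lhs => rw [← b.sum_repr y]
    rw [map_sum]
    refine Finset.sum_congr rfl fun j _ => ?_
    rw [map_smul, smul_eq_mul, mul_comm]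
  rw [h1, map_sum]
  refine Finset.sum_congr rfl fun i _ => ?_
  rw [map_mul, map_sum]
  congr 1
  exact Finset.sum_congr rfl fun j _ => (map_mul _ _ _).symm

theorem bc_skew (skew : ∀ x y, e x y = -e y x) (x y : ι → ℂ) :
    bc b e x y = -bc b e y x := by
  rw [bc_apply, bc_apply, ← Finset.sum_neg_distrib]
  simp_rw [Finset.mul_sum, ← Finset.sum_neg_distrib]
  rw [Finset.sum_comm]
  refine Finset.sum_congr rfl fun i _ => Finset.sum_congr rfl fun j _ => ?_
  rw [skew (b j) (b i), map_neg]
  ring

theorem bc_nd (hinj : Function.Injective (algebraMap R ℂ))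
    (nd : ∀ x, (∀ y, e x y = 0) → x = 0) (x : ι → ℂ) (h : ∀ y, bc b e x y = 0) : x = 0 := by
  set G : Matrix ι ι R := Matrix.of fun i j => e (b i) (b j) with hG
  have h1 : G.det ≠ 0 := by
    rw [Ne, ← Matrix.exists_vecMul_eq_zero_iff]
    rintro ⟨v, hv, hv'⟩
    apply hv
    have h2 : ∑ i, v i • b i = 0 := by
      refine nd _ fun y => ?_
      rw [← b.sum_repr y, map_sum]
      refine Finset.sum_eq_zero fun j _ => ?_
      rw [map_smul, map_sum, LinearMap.sum_apply]
      have h3 := congrFun hv' j
      have h4 : ∑ i, (e (v i • b i)) (b j) = 0 := by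
        rw [← Pi.zero_apply (M := fun _ : ι => R) j, ← h3]
        refine Finset.sum_congr rfl fun i _ => ?_
        rw [map_smul, LinearMap.smul_apply, smul_eq_mul]
        rfl
      rw [h4, smul_zero]
    funext i
    have h3 := congrArg (fun z => b.repr z i) h2
    simpa [Finsupp.single_apply, Finset.sum_ite_eq] using h3
  have h2 : (G.map (algebraMap R ℂ)).det ≠ 0 := by
    rw [← RingHom.mapMatrix_apply, ← RingHom.map_det]
    intro h3
    exact h1 (hinj (by rw [h3, map_zero]))
  rw [Ne, ← Matrix.exists_vecMul_eq_zero_iff] at h2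
  by_contra hx
  refine h2 ⟨x, hx, ?_⟩
  funext j
  have h3 := h (Pi.single j 1)
  rw [bc_apply] at h3
  rw [Pi.zero_apply, ← h3]
  refine Finset.sum_congr rfl fun i _ => ?_
  rw [Finset.sum_eq_single j]
  · rw [Pi.single_eq_same, mul_one]
    rfl
  · intro l _ hl
    rw [Pi.single_eq_of_ne hl, mul_zero]
  · intro hl
    exact absurd (Finset.mem_univ j) hl

end One

variable {R : Type} [CommRing R] [IsDomain R] [Algebra R ℂ] {S : Type} [Fintype S] [DecidableEq S]
  {M : S → Type} [∀ s, AddCommGroup (M s)] [∀ s, Module R (M s)] {ι : S → Type}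
  [∀ s, Fintype (ι s)] [∀ s, DecidableEq (ι s)] (bs : ∀ s, Basis (ι s) R (M s))

include bs in
/-- The first fundamental theorem for lattices, forms with complex values. -/
theorem base (hinj : Function.Injective (algebraMap R ℂ)) (e : ∀ s, M s →ₗ[R] M s →ₗ[R] R)
    (skew : ∀ s x y, e s x y = -e s y x) (nd : ∀ s x, (∀ y, e s x y = 0) → x = 0) {n j : ℕ}
    (F : (Fin n → ∀ s, M s) [⋀^Fin (2 * j)]→ₗ[R] ℂ)
    (hF : ∀ s (u : M s) (v : Fin (2 * j) → Fin n → ∀ s, M s),
      ∑ i, F (Function.update v i fun a => Pi.single s (e s (v i a s) u • u)) = 0) :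
    ∃ c : (Fin j → S × Fin n × Fin n) → ℂ, ∀ v : Fin (2 * j) → Fin n → ∀ s, M s,
      F v = ∑ κ, c κ * algebraMap R ℂ (altForm (fun s x y => e s x y) κ v) := by
  let b : Basis (Σ _ : Fin n, Σ s, ι s) R (Fin n → ∀ s, M s) := Pi.basis fun _ => Pi.basis bs
  let c : Basis (Σ _ : Fin n, Σ s, ι s) ℂ (Fin n → ∀ s, ι s → ℂ) :=
    Pi.basis fun _ => Pi.basis fun s => Pi.basisFun ℂ (ι s)
  let em : (Fin n → ∀ s, M s) → (Fin n → ∀ s, ι s → ℂ) := fun x a s => e1 (bs s) (x a s)
  have hem : ∀ x q, c.repr (em x) q = algebraMap R ℂ (b.repr x q) := by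
    intro x q
    change (Pi.basis fun _ => Pi.basis fun s => Pi.basisFun ℂ (ι s)).repr (em x) q =
      algebraMap R ℂ ((Pi.basis fun _ => Pi.basis bs).repr x q)
    rw [Pi.basis_repr, Pi.basis_repr, Pi.basis_repr, Pi.basis_repr, Pi.basisFun_repr]
    rfl
  have hemb : ∀ q, em (b q) = c q := by
    intro q
    refine c.repr.injective (Finsupp.ext fun q' => ?_)
    rw [hem, b.repr_self, c.repr_self, Finsupp.single_apply, Finsupp.single_apply]
    split_ifs
    · exact map_one _
    · exact map_zero _
  obtain ⟨G, hG⟩ := exists_ext b c em hem F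
  let B : ∀ s, (ι s → ℂ) →ₗ[ℂ] (ι s → ℂ) →ₗ[ℂ] ℂ := fun s => bc (bs s) (e s)
  have hskew : ∀ s x y, B s x y = -B s y x := fun s => bc_skew (bs s) (e s) (skew s)
  have halt : ∀ s x, B s x x = 0 := by
    intro s x
    have h1 := hskew s x x
    have h2 : (2 : ℂ) * B s x x = 0 := by linear_combination h1
    exact (mul_eq_zero.1 h2).resolve_left two_ne_zero
  have hnd : ∀ s x, (∀ y, B s x y = 0) → x = 0 := fun s => bc_nd (bs s) (e s) hinj (nd s)
  -- polarisation of the hypothesis
  have hF2 : ∀ s (u u' : M s) (v : Fin (2 * j) → Fin n → ∀ s, M s),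
      ∑ i, F (Function.update v i fun a => Pi.single s
        (e s (v i a s) u • u' + e s (v i a s) u' • u)) = 0 := by
    intro s u u' v
    have h1 := hF s (u + u') v
    have h2 : ∀ i, F (Function.update v i fun a => Pi.single s
        (e s (v i a s) (u + u') • (u + u'))) =
        F (Function.update v i fun a => Pi.single s (e s (v i a s) u • u)) +
        F (Function.update v i fun a => Pi.single s (e s (v i a s) u' • u')) +
        F (Function.update v i fun a => Pi.single s
          (e s (v i a s) u • u' + e s (v i a s) u' • u)) := by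
      intro i
      rw [← F.map_update_add, ← F.map_update_add]
      congr 2
      funext a
      rw [Pi.add_apply, Pi.add_apply, ← Pi.single_add, ← Pi.single_add]
      congr 1
      rw [map_add]
      module
    rw [Finset.sum_congr rfl fun i _ => h2 i, Finset.sum_add_distrib, Finset.sum_add_distrib,
      hF, hF, zero_add, zero_add] at h1
    exact h1
  -- the extension is killed by the symplectic Lie algebras
  have hG1 : ∀ s (D : End ℂ (ι s → ℂ)), (∀ x y, B s (D x) y + B s x (D y) = 0) →
      Pool.Agent.GHCFull.der (dg n (sg s D)) (2 * j) G = 0 := by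
    intro s D hD
    let N : Submodule ℂ (End ℂ (ι s → ℂ)) :=
      { carrier := {D | Pool.Agent.GHCFull.der (dg n (sg s D)) (2 * j) G = 0}
        add_mem' := by
          intro D D' hD hD'
          have h1 : ∀ w i, G (Function.update w i (dg n (sg s (D + D')) (w i))) =
              G (Function.update w i (dg n (sg s D) (w i))) +
              G (Function.update w i (dg n (sg s D') (w i))) := by
            intro w i
            rw [← G.map_update_add]
            congr 2
            funext a
            rw [Pi.add_apply, dg_apply, dg_apply, dg_apply, sg_apply, sg_apply, sg_apply,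
              LinearMap.add_apply, Pi.single_add]
          refine AlternatingMap.ext fun w => ?_
          have h2 := DFunLike.congr_fun hD w
          have h3 := DFunLike.congr_fun hD' w
          rw [Pool.Agent.GHCFull.der_apply, AlternatingMap.zero_apply] at h2 h3 ⊢
          rw [Finset.sum_congr rfl fun i _ => h1 w i, Finset.sum_add_distrib, h2, h3, add_zero]
        zero_mem' := by
          refine AlternatingMap.ext fun w => ?_
          rw [Pool.Agent.GHCFull.der_apply, AlternatingMap.zero_apply]
          refine Finset.sum_eq_zero fun i _ => G.map_coord_zero i ?_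
          rw [Function.update_self]
          funext a
          rw [dg_apply, sg_apply, LinearMap.zero_apply, Pi.single_zero]
          rfl
        smul_mem' := by
          intro r D hD
          have h1 : ∀ w i, G (Function.update w i (dg n (sg s (r • D)) (w i))) =
              r • G (Function.update w i (dg n (sg s D) (w i))) := by
            intro w i
            rw [← G.map_update_smul]
            congr 2
            funext a
            rw [Pi.smul_apply, dg_apply, dg_apply, sg_apply, sg_apply, LinearMap.smul_apply,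
              Pi.single_smul]
          refine AlternatingMap.ext fun w => ?_
          have h2 := DFunLike.congr_fun hD w
          rw [Pool.Agent.GHCFull.der_apply, AlternatingMap.zero_apply] at h2 ⊢
          rw [Finset.sum_congr rfl fun i _ => h1 w i, ← Finset.smul_sum, h2, smul_zero] }
    refine skew_mem (Pi.basisFun ℂ (ι s)) (hskew s) (hnd s) N ?_ D hD
    intro i i'
    change Pool.Agent.GHCFull.der (dg n (sg s (tw (B s) (Pi.basisFun ℂ (ι s) i)
      (Pi.basisFun ℂ (ι s) i')))) (2 * j) G = 0
    refine c.ext_alternating fun q _ => ?_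
    rw [Pool.Agent.GHCFull.der_apply, AlternatingMap.zero_apply]
    have h1 := hF2 s (bs s i) (bs s i') fun l => b (q l)
    rw [← h1]
    refine Finset.sum_congr rfl fun l _ => ?_
    rw [← hG]
    congr 1
    funext l'
    rcases eq_or_ne l' l with rfl | hl
    · rw [Function.update_self, Function.update_self, ← hemb]
      funext a t
      rw [dg_apply, sg_apply]
      change Pi.single (M := fun s => ι s → ℂ) s _ t = e1 (bs t) (Pi.single (M := M) s _ t)
      rcases eq_or_ne t s with rfl | ht
      · rw [Pi.single_eq_same, Pi.single_eq_same, tw_apply, e1_add, e1_smul, e1_smul, e1_basis,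
          e1_basis, ← bc_e1 (bs t), ← bc_e1 (bs t), e1_basis, e1_basis]
      · rw [Pi.single_eq_of_ne ht, Pi.single_eq_of_ne ht]
        funext i
        unfold e1
        rw [map_zero, Finsupp.zero_apply, map_zero, Pi.zero_apply]
    · rw [Function.update_of_ne hl, Function.update_of_ne hl, hemb]
  have hG2 : G ∈ Pool.Agent.TateOdd.prods (Gen B n) j := by
    refine fft_C halt hnd G fun d hd w => ?_
    have h1 : ∀ i, G (Function.update w i fun a s => d s (w i a s)) =
        ∑ s, G (Function.update w i (dg n (sg s (d s)) (w i))) := by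
      intro i
      rw [← AlternatingMap.map_update_sum]
      congr 2
      funext a t
      rw [Finset.sum_apply, Finset.sum_apply, Finset.sum_eq_single t]
      · rw [dg_apply, sg_apply, Pi.single_eq_same]
      · intro s _ hs
        rw [dg_apply, sg_apply, Pi.single_eq_of_ne (Ne.symm hs)]
      · intro h
        exact absurd (Finset.mem_univ t) h
    rw [Finset.sum_congr rfl fun i _ => h1 i, Finset.sum_comm]
    refine Finset.sum_eq_zero fun s _ => ?_
    have h2 := DFunLike.congr_fun (hG1 s (d s) (hd s)) w
    rwa [Pool.Agent.GHCFull.der_apply, AlternatingMap.zero_apply] at h2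
  obtain ⟨d, hd⟩ := prods_gen hG2
  refine ⟨d, fun v => ?_⟩
  rw [← hG, hd]
  refine Finset.sum_congr rfl fun κ _ => ?_
  unfold altForm prodForm
  rw [map_sum]
  congr 1
  refine Finset.sum_congr rfl fun π _ => ?_
  rw [zsmul_eq_mul, map_mul, map_intCast, map_prod]
  congr 1
  refine Finset.prod_congr rfl fun l _ => ?_
  exact bc_e1 _ _ _ _

end Pool.Agent.SpFFT
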