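import Pool.Agent.SpFFT.FftC

/-!
# Products of invariant forms as combinations of products of pairings
-/

set_option autoImplicit false
set_option linter.unusedSectionVars false

universe u

namespace Pool.Agent.SpFFT

open Pool.Agent.TateOdd (prods alt_sum_apply)

variable {S : Type} [Fintype S] [DecidableEq S] {V : S → Type u}
  [∀ s, AddCommGroup (V s)] [∀ s, Module ℂ (V s)]
  {B : ∀ s, V s →ₗ[ℂ] V s →ₗ[ℂ] ℂ}

/-- A product of invariant forms is a combination of products of pairings. -/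
theorem prods_gen {n j : ℕ} {f : (Fin n → ∀ s, V s) [⋀^Fin (2 * j)]→ₗ[ℂ] ℂ}
    (hf : f ∈ prods (Gen B n) j) :
    ∃ c : (Fin j → S × Fin n × Fin n) → ℂ, ∀ w : Fin (2 * j) → Fin n → ∀ s, V s,
      f w = ∑ κ, c κ * ∑ π : Equiv.Perm (Fin (2 * j)), ((Equiv.Perm.sign π : ℤ) : ℂ) *
        ∏ l : Fin j, B (κ l).1 (w (π ⟨2 * l, by omega⟩) (κ l).2.1 (κ l).1)
          (w (π ⟨2 * l + 1, by omega⟩) (κ l).2.2 (κ l).1) := by
  refine Submodule.span_induction (p := fun f _ => ∃ c : (Fin j → S × Fin n × Fin n) → ℂ,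
    ∀ w : Fin (2 * j) → Fin n → ∀ s, V s,
      f w = ∑ κ, c κ * ∑ π : Equiv.Perm (Fin (2 * j)), ((Equiv.Perm.sign π : ℤ) : ℂ) *
        ∏ l : Fin j, B (κ l).1 (w (π ⟨2 * l, by omega⟩) (κ l).2.1 (κ l).1)
          (w (π ⟨2 * l + 1, by omega⟩) (κ l).2.2 (κ l).1)) ?_ ?_ ?_ ?_ hf
  · rintro η ⟨ω, hω, hη⟩
    choose c hc using hω
    refine ⟨fun κ => ∏ l, c l (κ l).1 (κ l).2.1 (κ l).2.2, fun w => ?_⟩
    rw [hη w]
    simp_rw [Finset.mul_sum]
    rw [Finset.sum_comm]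
    refine Finset.sum_congr rfl fun π _ => ?_
    have h1 : ∀ l : Fin j, ω l (w (π ⟨2 * l, by omega⟩)) (w (π ⟨2 * l + 1, by omega⟩)) =
        ∑ t : S × Fin n × Fin n, c l t.1 t.2.1 t.2.2 *
          B t.1 (w (π ⟨2 * l, by omega⟩) t.2.1 t.1) (w (π ⟨2 * l + 1, by omega⟩) t.2.2 t.1) := by
      intro l
      rw [hc l, Fintype.sum_prod_type]
      refine Finset.sum_congr rfl fun s _ => ?_
      rw [Fintype.sum_prod_type]
    rw [Finset.prod_congr rfl fun l _ => h1 l, Finset.prod_univ_sum, Finset.mul_sum,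
      Fintype.piFinset_univ]
    refine Finset.sum_congr rfl fun κ _ => ?_
    rw [Finset.prod_mul_distrib]
    ring
  · exact ⟨fun _ => 0, fun w => by simp⟩
  · rintro x y _ _ ⟨c, hc⟩ ⟨d, hd⟩
    refine ⟨fun κ => c κ + d κ, fun w => ?_⟩
    rw [AlternatingMap.add_apply, hc, hd, ← Finset.sum_add_distrib]
    exact Finset.sum_congr rfl fun κ _ => (add_mul _ _ _).symm
  · rintro a x _ ⟨c, hc⟩
    refine ⟨fun κ => a * c κ, fun w => ?_⟩
    rw [AlternatingMap.smul_apply, hc, smul_eq_mul, Finset.mul_sum]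
    exact Finset.sum_congr rfl fun κ _ => (mul_assoc _ _ _).symm

end Pool.Agent.SpFFT
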