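import Pool.Agent.SpFFT.Lagr
import Pool.Agent.TateOdd.Fund

/-!
# The first fundamental theorem for products of symplectic groups, complex case
-/

set_option autoImplicit false
set_option linter.unusedSectionVars false

universe u w

namespace Pool.Agent.SpFFT

open Module
open Pool.Agent.TateOdd (dg dg_apply dg_mul sform sform_apply sform_alt sform_nd sform_mult
  semisimple_dg Div prods fft)
open Pool.Agent.OddRank (Stable Irreducible Semisimple FormOn)

section General

variable {k : Type w} [Field k] {S : Type} [Fintype S] [DecidableEq S] {V : S → Type u}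
  [∀ s, AddCommGroup (V s)] [∀ s, Module k (V s)]
  (B : ∀ s, V s →ₗ[k] V s →ₗ[k] k)

/-- The operator `D` on the factor `V s`. -/
def sg (s : S) (D : End k (V s)) : End k (∀ s, V s) :=
  LinearMap.single k V s ∘ₗ D ∘ₗ LinearMap.proj s

theorem sg_apply (s : S) (D : End k (V s)) (x : ∀ s, V s) :
    sg s D x = Pi.single s (D (x s)) := rfl

/-- The families of Lagrangian idempotents. -/
def GG : Set (End k (∀ s, V s)) :=
  {e | ∃ f : ∀ s, End k (V s), (∀ s, Lag (B s) (f s)) ∧ ∀ x s, e x s = f s (x s)}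

/-- The sum of the forms. -/
def psiS : (∀ s, V s) →ₗ[k] (∀ s, V s) →ₗ[k] k :=
  ∑ s, (B s).compl₁₂ (LinearMap.proj s) (LinearMap.proj s)

theorem psiS_apply (x y : ∀ s, V s) : psiS B x y = ∑ s, B s (x s) (y s) := by
  unfold psiS
  rw [LinearMap.sum_apply, LinearMap.sum_apply]
  rfl

variable {B}

theorem GG_idem {e : End k (∀ s, V s)} (he : e ∈ GG B) : e * e = e := by
  obtain ⟨f, hf, h⟩ := he
  refine LinearMap.ext fun x => funext fun s => ?_
  rw [Module.End.mul_apply, h, h, (hf s).1]

theorem GG_form {e : End k (∀ s, V s)} (he : e ∈ GG B) (x y : ∀ s, V s) :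
    psiS B (e x) y + psiS B x (e y) = psiS B x y := by
  obtain ⟨f, hf, h⟩ := he
  rw [psiS_apply, psiS_apply, psiS_apply, ← Finset.sum_add_distrib]
  refine Finset.sum_congr rfl fun s _ => ?_
  rw [h, h]
  exact (hf s).2 _ _

variable (halt : ∀ s x, B s x x = 0) (hnd : ∀ s x, (∀ y, B s x y = 0) → x = 0)

include halt in
theorem psiS_alt (x : ∀ s, V s) : psiS B x x = 0 := by
  rw [psiS_apply]
  exact Finset.sum_eq_zero fun s _ => halt s _

include hnd in
theorem psiS_nd (x : ∀ s, V s) (h : ∀ y, psiS B x y = 0) : x = 0 := by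
  funext s
  refine hnd s _ fun y => ?_
  have h1 := h (Pi.single s y)
  rw [psiS_apply, Finset.sum_eq_single s] at h1
  · rwa [Pi.single_eq_same] at h1
  · intro t _ ht
    rw [Pi.single_eq_of_ne ht, map_zero]
  · intro h2
    exact absurd (Finset.mem_univ s) h2

variable [∀ s, FiniteDimensional k (V s)] [CharZero k]

include halt hnd

theorem exists_GG : ∃ e, e ∈ GG B := by
  choose f hf using fun s => exists_lag _ (V s) (B s) (halt s) (hnd s) rfl
  exact ⟨LinearMap.pi fun s => f s ∘ₗ LinearMap.proj s, f, hf, fun x s => rfl⟩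

/-- The operators `sg s D` are differences of elements of `GG`. -/
theorem sg_diff {s : S} {e e' : End k (V s)} (he : Lag (B s) e) (he' : Lag (B s) e') :
    ∃ a ∈ GG B, ∃ b ∈ GG B, sg s (e - e') = a - b := by
  choose f hf using fun s => exists_lag _ (V s) (B s) (halt s) (hnd s) rfl
  have key : ∀ g : End k (V s), Lag (B s) g →
      (LinearMap.pi fun t => (Function.update f s g t) ∘ₗ LinearMap.proj t :
        End k (∀ s, V s)) ∈ GG B := by
    intro g hg
    refine ⟨Function.update f s g, fun t => ?_, fun x t => rfl⟩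
    by_cases h : t = s
    · subst h
      rw [Function.update_self]
      exact hg
    · rw [Function.update_of_ne h]
      exact hf t
  refine ⟨_, key e he, _, key e' he', ?_⟩
  refine LinearMap.ext fun x => funext fun t => ?_
  change Pi.single (M := V) s ((e - e') (x s)) t =
    Function.update f s e t (x t) - Function.update f s e' t (x t)
  by_cases h : t = s
  · subst h
    rw [Pi.single_eq_same, Function.update_self, Function.update_self, LinearMap.sub_apply]
  · rw [Pi.single_eq_of_ne h, Function.update_of_ne h, Function.update_of_ne h, sub_self]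

/-- Linear conditions on `GG`: stability. -/
theorem sg_stable {n : ℕ} {W : Submodule k (Fin n → ∀ s, V s)} (hW : Stable (dg n '' GG B) W)
    (s : S) (u : V s) {w : Fin n → ∀ s, V s} (hw : w ∈ W) : dg n (sg s (tv (B s) u)) w ∈ W := by
  have h1 := tv_mem (halt s) (hnd s) u
  refine Submodule.span_induction (p := fun D _ => dg n (sg s D) w ∈ W) ?_ ?_ ?_ ?_ h1
  · rintro _ ⟨e, e', he, he', rfl⟩
    obtain ⟨a, ha, b, hb, hab⟩ := sg_diff halt hnd he he'
    rw [hab, map_sub, LinearMap.sub_apply]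
    exact W.sub_mem (hW _ ⟨a, ha, rfl⟩ w hw) (hW _ ⟨b, hb, rfl⟩ w hw)
  · have h2 : dg n (sg s (0 : End k (V s))) w = 0 := by
      funext a
      rw [dg_apply, sg_apply, LinearMap.zero_apply, Pi.single_zero]
      rfl
    rw [h2]
    exact W.zero_mem
  · intro x y _ _ hx hy
    have h2 : dg n (sg s (x + y)) w = dg n (sg s x) w + dg n (sg s y) w := by
      funext a
      rw [Pi.add_apply, dg_apply, dg_apply, dg_apply, sg_apply, sg_apply, sg_apply,
        LinearMap.add_apply, Pi.single_add]
    rw [h2]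
    exact W.add_mem hx hy
  · intro c x _ hx
    have h2 : dg n (sg s (c • x)) w = c • dg n (sg s x) w := by
      funext a
      rw [Pi.smul_apply, dg_apply, dg_apply, sg_apply, sg_apply, LinearMap.smul_apply,
        Pi.single_smul]
    rw [h2]
    exact W.smul_mem c hx

/-- Linear conditions on `GG`: invariance. -/
theorem sg_inv {n : ℕ} {ω : (Fin n → ∀ s, V s) →ₗ[k] (Fin n → ∀ s, V s) →ₗ[k] k}
    (hω : ∀ e ∈ dg n '' GG B, ∀ x y, ω (e x) y + ω x (e y) = ω x y) (s : S) (u : V s)
    (x y : Fin n → ∀ s, V s) :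
    ω (dg n (sg s (tv (B s) u)) x) y + ω x (dg n (sg s (tv (B s) u)) y) = 0 := by
  have h1 := tv_mem (halt s) (hnd s) u
  refine Submodule.span_induction
    (p := fun D _ => ω (dg n (sg s D) x) y + ω x (dg n (sg s D) y) = 0) ?_ ?_ ?_ ?_ h1
  · rintro _ ⟨e, e', he, he', rfl⟩
    obtain ⟨a, ha, b, hb, hab⟩ := sg_diff halt hnd he he'
    rw [hab, map_sub, LinearMap.sub_apply, LinearMap.sub_apply, map_sub, map_sub,
      LinearMap.sub_apply]
    linear_combination hω _ ⟨a, ha, rfl⟩ x y - hω _ ⟨b, hb, rfl⟩ x y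
  · have h2 : ∀ w, dg n (sg s (0 : End k (V s))) w = 0 := by
      intro w
      funext a
      rw [dg_apply, sg_apply, LinearMap.zero_apply, Pi.single_zero]
      rfl
    rw [h2, h2, map_zero, map_zero, LinearMap.zero_apply, add_zero]
  · intro D D' _ _ hD hD'
    have h2 : ∀ w, dg n (sg s (D + D')) w = dg n (sg s D) w + dg n (sg s D') w := by
      intro w
      funext a
      rw [Pi.add_apply, dg_apply, dg_apply, dg_apply, sg_apply, sg_apply, sg_apply,
        LinearMap.add_apply, Pi.single_add]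
    rw [h2, h2, map_add, map_add, LinearMap.add_apply]
    linear_combination hD + hD'
  · intro c D _ hD
    have h2 : ∀ w, dg n (sg s (c • D)) w = c • dg n (sg s D) w := by
      intro w
      funext a
      rw [Pi.smul_apply, dg_apply, dg_apply, sg_apply, sg_apply, LinearMap.smul_apply,
        Pi.single_smul]
    rw [h2, h2, map_smul, map_smul, LinearMap.smul_apply, smul_eq_mul, smul_eq_mul]
    linear_combination c * hD

theorem semisimple_GG : Semisimple (GG B) := by
  intro U hU
  have hsg : ∀ s u, ∀ x ∈ U, sg s (tv (B s) u) x ∈ U := by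
    intro s u x hx
    have hU' : Stable (dg 1 '' GG B) (Submodule.pi Set.univ fun _ : Fin 1 => U) := by
      rintro _ ⟨e, he, rfl⟩ w hw a _
      exact hU e he _ (hw a (Set.mem_univ a))
    have h1 := sg_stable halt hnd hU' s u (w := fun _ => x) (fun _ _ => hx)
    exact h1 0 (Set.mem_univ _)
  have hfull : ∀ s, (∃ x ∈ U, x s ≠ 0) → ∀ v : V s, Pi.single s v ∈ U := by
    rintro s ⟨x, hx, hxs⟩
    have h1 : ∀ v : V s, B s (x s) v ≠ 0 → Pi.single s v ∈ U := by
      intro v hv
      have h2 := hsg s v x hx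
      rw [sg_apply, tv_apply, Pi.single_smul] at h2
      have h3 := U.smul_mem (B s (x s) v)⁻¹ h2
      rwa [smul_smul, inv_mul_cancel₀ hv, one_smul] at h3
    obtain ⟨u₀, hu₀⟩ : ∃ u, B s (x s) u ≠ 0 := by
      by_contra hcon
      push Not at hcon
      exact hxs (hnd s _ hcon)
    intro v
    by_cases hv : B s (x s) v = 0
    · have h2 := U.sub_mem (h1 (u₀ + v) (by rw [map_add, hv, add_zero]; exact hu₀)) (h1 u₀ hu₀)
      rwa [Pi.single_add, add_sub_cancel_left] at h2
    · exact h1 v hv
  let U' : Submodule k (∀ s, V s) :=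
    { carrier := {y | ∀ s, (∃ x ∈ U, x s ≠ 0) → y s = 0}
      add_mem' := fun {y z} hy hz s hs => by rw [Pi.add_apply, hy s hs, hz s hs, add_zero]
      zero_mem' := fun _ _ => rfl
      smul_mem' := fun c y hy s hs => by rw [Pi.smul_apply, hy s hs, smul_zero] }
  refine ⟨U', ?_, ?_⟩
  · rintro e ⟨f, _, h⟩ y hy s hs
    rw [h, hy s hs, map_zero]
  · refine IsCompl.of_eq ?_ ?_
    · rw [eq_bot_iff]
      rintro x ⟨hx, hx'⟩
      rw [Submodule.mem_bot]
      funext s
      by_contra h
      exact h (hx' s ⟨x, hx, h⟩)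
    · rw [eq_top_iff]
      intro x _
      have h1 : x = ∑ s, Pi.single s (x s) := (Finset.univ_sum_single x).symm
      rw [h1]
      refine Submodule.sum_mem _ fun s _ => ?_
      by_cases h : ∃ x ∈ U, x s ≠ 0
      · exact Submodule.mem_sup_left (hfull s h _)
      · refine Submodule.mem_sup_right ?_
        intro t ht
        have hts : t ≠ s := fun h2 => h (h2 ▸ ht)
        rw [Pi.single_eq_of_ne hts]

/-- Irreducible subspaces are symplectic. -/
theorem formOn_GG {n : ℕ} {W : Submodule k (Fin n → ∀ s, V s)}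
    (hW : Irreducible (dg n '' GG B) W) : ∃ φ, FormOn (dg n '' GG B) W φ := by
  obtain ⟨x₀, hx₀, hne⟩ := (Submodule.ne_bot_iff _).1 hW.2.1
  obtain ⟨a, ha⟩ : ∃ a, x₀ a ≠ 0 := by
    by_contra hcon
    push Not at hcon
    exact hne (funext hcon)
  obtain ⟨s, hs⟩ : ∃ s, x₀ a s ≠ 0 := by
    by_contra hcon
    push Not at hcon
    exact ha (funext hcon)
  let p : (Fin n → ∀ s, V s) →ₗ[k] V s := LinearMap.proj s ∘ₗ LinearMap.proj a
  have hp : ∀ x, p x = x a s := fun x => rfl
  have hinj : ∀ x ∈ W, p x = 0 → x = 0 := by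
    have h1 : Stable (dg n '' GG B) (W ⊓ LinearMap.ker p) := by
      rintro _ ⟨e, he, rfl⟩ x ⟨hx, hx'⟩
      refine ⟨hW.1 _ ⟨e, he, rfl⟩ x hx, ?_⟩
      obtain ⟨f, _, h⟩ := he
      rw [SetLike.mem_coe, LinearMap.mem_ker, hp] at hx' ⊢
      rw [dg_apply, h, hx', map_zero]
    rcases hW.2.2 _ h1 inf_le_left with h2 | h2
    · intro x hx hx'
      have h3 : x ∈ W ⊓ LinearMap.ker p := ⟨hx, hx'⟩
      rwa [h2, Submodule.mem_bot] at h3
    · exfalso
      rw [← h2] at hx₀
      exact hs hx₀.2
  refine ⟨(B s).compl₁₂ p p, fun x _ => halt s _, fun x hx hxy => ?_, ?_⟩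
  · by_contra h0
    have h1 : p x ≠ 0 := fun h => h0 (hinj x hx h)
    obtain ⟨u, hu⟩ : ∃ u, B s (p x) u ≠ 0 := by
      by_contra hcon
      push Not at hcon
      exact h1 (hnd s _ hcon)
    have h2 := hxy _ (sg_stable halt hnd hW.1 s u hx)
    rw [LinearMap.compl₁₂_apply, hp (dg n (sg s (tv (B s) u)) x), dg_apply, sg_apply,
      Pi.single_eq_same, tv_apply, map_smul, smul_eq_mul] at h2
    exact hu (mul_self_eq_zero.1 h2)
  · rintro _ ⟨e, ⟨f, hf, h⟩, rfl⟩ x _ y _
    rw [LinearMap.compl₁₂_apply, LinearMap.compl₁₂_apply, LinearMap.compl₁₂_apply, hp, hp, hp, hp,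
      dg_apply, dg_apply, h, h]
    exact (hf s).2 _ _

/-- Invariant pairings of `V s` and `V t`. -/
theorem pairing_ne {s t : S} {β : V s →ₗ[k] V t →ₗ[k] k}
    (h : ∀ u v w, β (tv (B s) u v) w = 0) : β = 0 := by
  ext v w
  by_cases hv : v = 0
  · rw [hv, map_zero, LinearMap.zero_apply, LinearMap.zero_apply, LinearMap.zero_apply]
  obtain ⟨x, hx⟩ : ∃ x, B s v x ≠ 0 := by
    by_contra hcon
    push Not at hcon
    exact hv (hnd s _ hcon)
  have h1 := h v x w
  rw [tv_apply, map_smul, LinearMap.smul_apply, smul_eq_mul, alt_symm (halt s) x v] at h1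
  exact (mul_eq_zero.1 h1).resolve_left (neg_ne_zero.2 hx)

theorem pairing_eq {s : S} {β : V s →ₗ[k] V s →ₗ[k] k}
    (h : ∀ u v w, β (tv (B s) u v) w + β v (tv (B s) u w) = 0) : ∃ c : k, β = c • B s := by
  have h' : ∀ u v w, B s v u * β u w + B s w u * β v u = 0 := by
    intro u v w
    have h1 := h u v w
    rwa [tv_apply, tv_apply, map_smul, map_smul, LinearMap.smul_apply, smul_eq_mul,
      smul_eq_mul] at h1
  by_cases h0 : ∃ u v, B s u v ≠ 0
  swap
  · push Not at h0
    refine ⟨0, ?_⟩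
    ext v w
    rw [hnd s v (h0 v), map_zero, LinearMap.zero_apply, map_zero, LinearMap.zero_apply]
  have h1 : ∀ u, ∃ c : k, (∀ w, β u w = c * B s u w) ∧ ∀ v, β v u = c * B s v u := by
    intro u
    by_cases hu : u = 0
    · refine ⟨0, fun w => ?_, fun v => ?_⟩
      · rw [hu, map_zero, LinearMap.zero_apply, zero_mul]
      · rw [hu, map_zero, zero_mul]
    obtain ⟨x, hx⟩ : ∃ x, B s x u ≠ 0 := by
      by_contra hcon
      push Not at hcon
      refine hu (hnd s _ fun y => ?_)
      rw [alt_symm (halt s), hcon, neg_zero]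
    have h2 : ∀ w, β u w = (β x u / B s x u) * B s u w := by
      intro w
      have h3 := h' u x w
      rw [alt_symm (halt s) u w]
      field_simp
      linear_combination h3
    refine ⟨β x u / B s x u, h2, fun v => ?_⟩
    have h3 := h' u v x
    rw [h2, alt_symm (halt s) u x] at h3
    have h4 : B s x u * (β v u - β x u / B s x u * B s v u) = 0 := by
      linear_combination h3
    have h5 := (mul_eq_zero.1 h4).resolve_left hx
    exact sub_eq_zero.1 h5
  choose c hc1 hc2 using h1
  have h2 : ∀ u v, B s u v ≠ 0 → c u = c v := by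
    intro u v huv
    have h3 := hc1 u v
    rw [hc2 v u] at h3
    exact (mul_right_cancel₀ huv h3).symm
  obtain ⟨u₀, v₀, huv⟩ := h0
  have h3 : ∀ u, u ≠ 0 → c u = c u₀ := by
    intro u hu
    obtain ⟨x, hx⟩ : ∃ x, B s u x ≠ 0 := by
      by_contra hcon
      push Not at hcon
      exact hu (hnd s _ hcon)
    by_cases h4 : B s u v₀ = 0
    · by_cases h5 : B s u₀ x = 0
      · have h6 : B s u (v₀ + x) ≠ 0 := by rw [map_add, h4, zero_add]; exact hx
        have h7 : B s u₀ (v₀ + x) ≠ 0 := by rw [map_add, h5, add_zero]; exact huv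
        rw [h2 _ _ h6, h2 _ _ h7]
      · rw [h2 _ _ hx, h2 _ _ h5]
    · rw [h2 _ _ h4, h2 _ _ huv]
  refine ⟨c u₀, ?_⟩
  ext u w
  rw [LinearMap.smul_apply, LinearMap.smul_apply, smul_eq_mul]
  by_cases hu : u = 0
  · rw [hu, map_zero, map_zero, LinearMap.zero_apply, mul_zero]
  · rw [hc1, h3 u hu]

/-- The forms in two arguments: combinations of the `B s (x a s) (y b s)`. -/
def Gen (B : ∀ s, V s →ₗ[k] V s →ₗ[k] k) (n : ℕ)
    (ω : (Fin n → ∀ s, V s) →ₗ[k] (Fin n → ∀ s, V s) →ₗ[k] k) : Prop :=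
  ∃ c : S → Fin n → Fin n → k, ∀ x y, ω x y = ∑ s, ∑ a, ∑ b, c s a b * B s (x a s) (y b s)

theorem gen_of_div {n : ℕ} {ω : (Fin n → ∀ s, V s) →ₗ[k] (Fin n → ∀ s, V s) →ₗ[k] k}
    (hω : ∀ e ∈ dg n '' GG B, ∀ x y, ω (e x) y + ω x (e y) = ω x y) : Gen B n ω := by
  let i : ∀ (a : Fin n) (s : S), V s →ₗ[k] (Fin n → ∀ s, V s) := fun a s =>
    LinearMap.single k (fun _ : Fin n => ∀ s, V s) a ∘ₗ LinearMap.single k V s
  have hi : ∀ a s v, i a s v = Pi.single a (Pi.single s v) := fun a s v => rfl
  have hsame : ∀ (s : S) (u : V s) (a : Fin n) (v : V s),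
      dg n (sg s (tv (B s) u)) (i a s v) = i a s (tv (B s) u v) := by
    intro s u a v
    funext b
    rw [dg_apply, hi, hi, sg_apply]
    by_cases h : b = a
    · subst h
      rw [Pi.single_eq_same, Pi.single_eq_same, Pi.single_eq_same]
    · rw [Pi.single_eq_of_ne h, Pi.single_eq_of_ne h, Pi.zero_apply, map_zero, Pi.single_zero]
  have hdiff : ∀ (s t : S) (u : V s) (a : Fin n) (v : V t), s ≠ t →
      dg n (sg s (tv (B s) u)) (i a t v) = 0 := by
    intro s t u a v hst
    funext b
    rw [dg_apply, hi, sg_apply, Pi.zero_apply]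
    by_cases h : b = a
    · subst h
      rw [Pi.single_eq_same, Pi.single_eq_of_ne hst, map_zero, Pi.single_zero]
    · rw [Pi.single_eq_of_ne h, Pi.zero_apply, map_zero, Pi.single_zero]
  have h1 : ∀ (a b : Fin n) (s : S), ∃ c : k, ∀ v w, ω (i a s v) (i b s w) = c * B s v w := by
    intro a b s
    obtain ⟨c, hc⟩ := pairing_eq halt hnd (s := s) (β := ω.compl₁₂ (i a s) (i b s)) (by
      intro u v w
      rw [LinearMap.compl₁₂_apply, LinearMap.compl₁₂_apply, ← hsame, ← hsame]
      exact sg_inv halt hnd hω s u _ _)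
    refine ⟨c, fun v w => ?_⟩
    have h2 := LinearMap.congr_fun (LinearMap.congr_fun hc v) w
    rwa [LinearMap.compl₁₂_apply, LinearMap.smul_apply, LinearMap.smul_apply, smul_eq_mul] at h2
  have h2 : ∀ (a b : Fin n) (s t : S), s ≠ t → ∀ v w, ω (i a s v) (i b t w) = 0 := by
    intro a b s t hst v w
    have h3 := pairing_ne halt hnd (β := ω.compl₁₂ (i a s) (i b t)) (by
      intro u v w
      have h4 := sg_inv halt hnd hω s u (i a s v) (i b t w)
      rw [hsame, hdiff s t u b w hst, map_zero, add_zero] at h4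
      exact h4)
    exact LinearMap.congr_fun (LinearMap.congr_fun h3 v) w
  choose c hc using h1
  refine ⟨fun s a b => c a b s, fun x y => ?_⟩
  have hdec : ∀ x : Fin n → ∀ s, V s, x = ∑ a, ∑ s, i a s (x a s) := by
    intro x
    have h3 : ∀ a, ∑ s, i a s (x a s) = Pi.single a (x a) := by
      intro a
      have h4 : x a = ∑ s, Pi.single s (x a s) := (Finset.univ_sum_single (x a)).symm
      conv_rhs => rw [h4]
      change ∑ s, i a s (x a s) =
        LinearMap.single k (fun _ : Fin n => ∀ s, V s) a (∑ s, Pi.single s (x a s))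
      rw [map_sum]
      rfl
    rw [Finset.sum_congr rfl fun a _ => h3 a]
    exact (Finset.univ_sum_single x).symm
  have h4 : ∀ z w, ω z w = ∑ a, ∑ t, ω (i a t (z a t)) w := by
    intro z w
    conv_lhs => rw [hdec z]
    rw [map_sum, LinearMap.sum_apply]
    exact Finset.sum_congr rfl fun a _ => by rw [map_sum, LinearMap.sum_apply]
  have h5 : ∀ z w, ω z w = ∑ b, ∑ s, ω z (i b s (w b s)) := by
    intro z w
    conv_lhs => rw [hdec w]
    rw [map_sum]
    exact Finset.sum_congr rfl fun b _ => by rw [map_sum]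
  rw [h4, Finset.sum_comm]
  refine Finset.sum_congr rfl fun t _ => Finset.sum_congr rfl fun a _ => ?_
  rw [h5]
  refine Finset.sum_congr rfl fun b _ => ?_
  rw [Finset.sum_eq_single t]
  · exact hc a b t _ _
  · intro s _ hs
    exact h2 a b t s (Ne.symm hs) _ _
  · intro h
    exact absurd (Finset.mem_univ t) h

end General

section Complex

variable {S : Type} [Fintype S] [DecidableEq S] {V : S → Type u}
  [∀ s, AddCommGroup (V s)] [∀ s, Module ℂ (V s)] [∀ s, FiniteDimensional ℂ (V s)]
  {B : ∀ s, V s →ₗ[ℂ] V s →ₗ[ℂ] ℂ}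

/-- Operators which commute with the elementary operators are diagonal. -/
theorem diag_of_comm {n : ℕ} (a₀ : Fin n) {D : End ℂ (Fin n → ∀ s, V s)}
    (hD : ∀ z : End ℂ (Fin n → ∀ s, V s), (∀ e ∈ dg n '' GG B, e * z = z * e) → D * z = z * D) :
    ∃ d : ∀ s, End ℂ (V s), ∀ x a s, D x a s = d s (x a s) := by
  let q : Fin n → Fin n → S → End ℂ (Fin n → ∀ s, V s) := fun a b s =>
    (LinearMap.single ℂ (fun _ : Fin n => ∀ s, V s) a ∘ₗ LinearMap.single ℂ V s) ∘ₗ
      (LinearMap.proj s ∘ₗ LinearMap.proj b)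
  have hq : ∀ a b s x, q a b s x = Pi.single a (Pi.single s (x b s)) := fun a b s x => rfl
  have hz : ∀ (a b : Fin n) (s : S), D * q a b s = q a b s * D := by
    intro a b s
    refine hD _ ?_
    rintro _ ⟨e, ⟨f, _, h⟩, rfl⟩
    refine LinearMap.ext fun x => funext fun c => funext fun t => ?_
    rw [Module.End.mul_apply, Module.End.mul_apply, dg_apply, h, hq, hq, dg_apply, h]
    by_cases hc : c = a
    · subst hc
      rw [Pi.single_eq_same, Pi.single_eq_same]
      by_cases ht : t = s
      · subst ht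
        rw [Pi.single_eq_same, Pi.single_eq_same]
      · rw [Pi.single_eq_of_ne ht, Pi.single_eq_of_ne ht, map_zero]
    · rw [Pi.single_eq_of_ne hc, Pi.single_eq_of_ne hc, Pi.zero_apply, map_zero]
  let d : ∀ s, End ℂ (V s) := fun s => (LinearMap.proj s ∘ₗ LinearMap.proj a₀) ∘ₗ D ∘ₗ
    (LinearMap.single ℂ (fun _ : Fin n => ∀ s, V s) a₀ ∘ₗ LinearMap.single ℂ V s)
  have hd : ∀ s v, d s v = D (Pi.single a₀ (Pi.single s v)) a₀ s := fun s v => rfl
  refine ⟨d, fun x a s => ?_⟩
  have h1 := LinearMap.congr_fun (hz a₀ a s) x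
  rw [Module.End.mul_apply, Module.End.mul_apply, hq, hq] at h1
  rw [hd, h1, Pi.single_eq_same, Pi.single_eq_same]

/-- **The first fundamental theorem for products of symplectic groups.** -/
theorem fft_C (halt : ∀ s x, B s x x = 0) (hnd : ∀ s x, (∀ y, B s x y = 0) → x = 0)
    {n j : ℕ} (f : (Fin n → ∀ s, V s) [⋀^Fin (2 * j)]→ₗ[ℂ] ℂ)
    (hf : ∀ d : ∀ s, End ℂ (V s), (∀ s x y, B s (d s x) y + B s x (d s y) = 0) →
      ∀ w : Fin (2 * j) → Fin n → ∀ s, V s,
        ∑ i, f (Function.update w i fun a s => d s (w i a s)) = 0) :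
    f ∈ prods (Gen B n) j := by
  have h1 : f ∈ prods (Div (dg n '' GG B)) j := by
    refine fft (sform_alt n (psiS_alt halt)) (sform_nd n (psiS_nd hnd))
      (Set.Nonempty.image _ (exists_GG halt hnd)) ?_ (sform_mult n fun e he => GG_form he)
      (semisimple_dg n (semisimple_GG halt hnd))
      (fun W hW _ => formOn_GG halt hnd hW) j f ?_
    · rintro _ ⟨e, he, rfl⟩
      rw [← dg_mul, GG_idem he]
    · intro D hD hDc
      ext w
      rw [Pool.Agent.GHCFull.der_apply, AlternatingMap.zero_apply]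
      rcases Nat.eq_zero_or_pos n with rfl | hn
      · refine Finset.sum_eq_zero fun i _ => ?_
        refine f.map_coord_zero i (Subsingleton.elim _ _)
      · obtain ⟨d, hd⟩ := diag_of_comm ⟨0, hn⟩ hDc
        have h2 : ∀ x, D x = fun a s => d s (x a s) := fun x =>
          funext fun a => funext fun s => hd x a s
        simp only [h2]
        refine hf d (fun s x y => ?_) w
        have h3 := hD (Pi.single ⟨0, hn⟩ (Pi.single s x)) (Pi.single ⟨0, hn⟩ (Pi.single s y))
        rw [sform_apply, sform_apply, Finset.sum_eq_single ⟨0, hn⟩,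
          Finset.sum_eq_single ⟨0, hn⟩, psiS_apply, psiS_apply, Finset.sum_eq_single s,
          Finset.sum_eq_single s] at h3
        · simpa only [hd, Pi.single_eq_same] using h3
        · intro t _ ht
          rw [Pi.single_eq_same, Pi.single_eq_of_ne ht, map_zero, LinearMap.zero_apply]
        · intro h
          exact absurd (Finset.mem_univ _) h
        · intro t _ ht
          rw [Pi.single_eq_same (M := fun _ : Fin n => ∀ s, V s) ⟨0, hn⟩ (Pi.single s y),
            Pi.single_eq_of_ne ht, map_zero]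
        · intro h
          exact absurd (Finset.mem_univ _) h
        · intro b _ hb
          rw [Pi.single_eq_of_ne hb, map_zero, LinearMap.zero_apply]
        · intro h
          exact absurd (Finset.mem_univ _) h
        · intro b _ hb
          rw [Pi.single_eq_of_ne (M := fun _ : Fin n => ∀ s, V s) hb (Pi.single s y), map_zero]
        · intro h
          exact absurd (Finset.mem_univ _) h
  refine Submodule.span_mono ?_ h1
  rintro η ⟨ω, hω, hη⟩
  exact ⟨ω, fun i => gen_of_div halt hnd (hω i).2, hη⟩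

end Complex

end Pool.Agent.SpFFT
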