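import Mathlib

/-!
# Lagrangian idempotents
-/

set_option autoImplicit false

universe u v

namespace Pool.Agent.SpFFT

open Module

variable {k : Type u} [Field k]

/-- `e` is the projection onto a Lagrangian subspace along a Lagrangian subspace. -/
def Lag {V : Type v} [AddCommGroup V] [Module k V] (B : V →ₗ[k] V →ₗ[k] k) (e : End k V) : Prop :=
  (∀ x, e (e x) = e x) ∧ ∀ x y, B (e x) y + B x (e y) = B x y

theorem alt_symm {V : Type v} [AddCommGroup V] [Module k V] {B : V →ₗ[k] V →ₗ[k] k}
    (halt : ∀ x, B x x = 0) (x y : V) : B x y = -B y x := by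
  have h := halt (x + y)
  rw [map_add, map_add, LinearMap.add_apply, LinearMap.add_apply, halt, halt, zero_add,
    add_zero] at h
  linear_combination h

/-- There are Lagrangian idempotents. -/
theorem exists_lag (d : ℕ) : ∀ (V : Type v) [AddCommGroup V] [Module k V] [FiniteDimensional k V]
    (B : V →ₗ[k] V →ₗ[k] k), (∀ x, B x x = 0) → (∀ x, (∀ y, B x y = 0) → x = 0) →
    finrank k V = d → ∃ e : End k V, Lag B e := by
  induction d using Nat.strong_induction_on with
  | _ d ih =>
    intro V _ _ _ B halt hnd hd
    by_cases h0 : ∃ u : V, u ≠ 0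
    swap
    · push Not at h0
      refine ⟨0, fun x => by simp, fun x y => ?_⟩
      rw [h0 x]
      simp
    obtain ⟨u, hu⟩ := h0
    obtain ⟨v₀, hv₀⟩ : ∃ v, B u v ≠ 0 := by
      by_contra hcon
      push Not at hcon
      exact hu (hnd u hcon)
    obtain ⟨v, huv⟩ : ∃ v : V, B u v = 1 :=
      ⟨(B u v₀)⁻¹ • v₀, by rw [map_smul, smul_eq_mul, inv_mul_cancel₀ hv₀]⟩
    have hvu : B v u = -1 := by rw [alt_symm halt, huv]
    let W : Submodule k V := LinearMap.ker (B u) ⊓ LinearMap.ker (B v)
    have hW : ∀ w : W, B u w = 0 ∧ B v w = 0 := fun w =>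
      ⟨LinearMap.mem_ker.1 w.2.1, LinearMap.mem_ker.1 w.2.2⟩
    have hW' : ∀ w : W, B w u = 0 ∧ B w v = 0 := fun w => by
      rw [alt_symm halt, alt_symm halt (w : V) v, (hW w).1, (hW w).2, neg_zero]
      exact ⟨rfl, rfl⟩
    let π₀ : V →ₗ[k] V := LinearMap.id - (B.flip v).smulRight u - (B u).smulRight v
    have hπ₀ : ∀ x, π₀ x = x - B x v • u - B u x • v := fun x => rfl
    have hπW : ∀ x, π₀ x ∈ W := by
      intro x
      refine ⟨LinearMap.mem_ker.2 ?_, LinearMap.mem_ker.2 ?_⟩
      · rw [hπ₀, map_sub, map_sub, map_smul, map_smul, halt, huv]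
        simp
      · rw [hπ₀, map_sub, map_sub, map_smul, map_smul, halt, hvu, alt_symm halt x v]
        simp
    let π : V →ₗ[k] W := π₀.codRestrict W hπW
    have hπ : ∀ x, ((π x : W) : V) = x - B x v • u - B u x • v := fun x => rfl
    have hdec : ∀ x, x = B x v • u + B u x • v + (π x : V) := by
      intro x
      rw [hπ]
      module
    have hπu : π u = 0 := by
      apply Subtype.ext
      rw [hπ, huv, halt]
      simp
    have hπw : ∀ w : W, π w = w := by
      intro w
      apply Subtype.ext
      rw [hπ, (hW' w).2, (hW w).1]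
      simp
    let BW : W →ₗ[k] W →ₗ[k] k := B.compl₁₂ W.subtype W.subtype
    have hBW : ∀ x y : W, BW x y = B x y := fun x y => rfl
    have hlt : finrank k W < d := by
      rw [← hd]
      apply Submodule.finrank_lt
      intro h
      have h1 : u ∈ W := by rw [h]; trivial
      have h2 := (hW ⟨u, h1⟩).2
      change B v u = 0 at h2
      rw [hvu] at h2
      exact one_ne_zero (neg_eq_zero.1 h2)
    obtain ⟨e, he1, he2⟩ := ih _ hlt W BW (fun x => halt x) (by
      intro x hx
      apply Subtype.ext
      apply hnd
      intro y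
      rw [hdec y, map_add, map_add, map_smul, map_smul, (hW' x).1, (hW' x).2, ← hBW, hx]
      simp) rfl
    let e' : End k V := (B.flip v).smulRight u + W.subtype ∘ₗ e ∘ₗ π
    have he' : ∀ x, e' x = B x v • u + (e (π x) : V) := fun x => rfl
    refine ⟨e', fun x => ?_, fun x y => ?_⟩
    · rw [he' x, map_add, map_smul, he' u, huv, hπu, map_zero, he', (hW' (e (π x))).2, hπw, he1]
      simp
    · have h1 : B (e' x) y = B x v * B u y + B (e (π x) : V) (π y : V) := by
        rw [he', map_add, LinearMap.add_apply, map_smul, LinearMap.smul_apply, smul_eq_mul]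
        congr 1
        conv_lhs => rw [hdec y]
        rw [map_add, map_add, map_smul, map_smul, (hW' (e (π x))).1, (hW' (e (π x))).2]
        simp
      have h2 : B x (e' y) = -(B u x * B y v) + B (π x : V) (e (π y) : V) := by
        rw [he', map_add, map_smul, smul_eq_mul, alt_symm halt x u]
        have h3 : B x (e (π y) : V) = B (π x : V) (e (π y) : V) := by
          conv_lhs => rw [hdec x]
          rw [map_add, map_add, map_smul, map_smul, LinearMap.add_apply, LinearMap.add_apply,
            LinearMap.smul_apply, LinearMap.smul_apply, (hW (e (π y))).1, (hW (e (π y))).2]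
          simp
        rw [h3]
        ring
      have h3 : B x y = B x v * B u y - B u x * B y v + B (π x : V) (π y : V) := by
        conv_lhs => rw [hdec x, hdec y]
        simp only [map_add, map_smul, LinearMap.add_apply, LinearMap.smul_apply, smul_eq_mul,
          (hW (π y)).1, (hW (π y)).2, (hW' (π x)).1, (hW' (π x)).2, halt, huv, hvu]
        ring
      have h4 := he2 (π x) (π y)
      rw [hBW, hBW, hBW] at h4
      rw [h1, h2, h3, ← h4]
      ring

/-- The operator `x ↦ B(x, u) u`. -/
def tv {V : Type v} [AddCommGroup V] [Module k V] (B : V →ₗ[k] V →ₗ[k] k) (u : V) : End k V :=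
  (B.flip u).smulRight u

section

variable {V : Type v} [AddCommGroup V] [Module k V] {B : V →ₗ[k] V →ₗ[k] k}

theorem tv_apply (u x : V) : tv B u x = B x u • u := rfl

theorem tv_skew (halt : ∀ x, B x x = 0) (u x y : V) : B (tv B u x) y + B x (tv B u y) = 0 := by
  rw [tv_apply, tv_apply, map_smul, map_smul, LinearMap.smul_apply, smul_eq_mul, smul_eq_mul,
    alt_symm halt u y]
  ring

/-- The conjugate of an idempotent. -/
theorem lag_conj (halt : ∀ x, B x x = 0) {e : End k V} (he : Lag B e) (u : V) (t : k) :
    Lag B (e + t • (tv B u * e - e * tv B u) - (t * t * B (e u) u) • tv B u) := by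
  have h1 : ∀ x, (e + t • (tv B u * e - e * tv B u) - (t * t * B (e u) u) • tv B u) x =
      e (x - (t * B x u) • u) + (t * B (e (x - (t * B x u) • u)) u) • u := by
    intro x
    simp only [LinearMap.sub_apply, LinearMap.add_apply, LinearMap.smul_apply,
      Module.End.mul_apply, tv_apply, map_sub, map_smul, smul_eq_mul]
    module
  have h2 : ∀ x, x + (t * B x u) • u - (t * B (x + (t * B x u) • u) u) • u = x := by
    intro x
    rw [map_add, LinearMap.add_apply, map_smul, LinearMap.smul_apply, halt, smul_zero, add_zero,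
      add_sub_cancel_right]
  refine ⟨fun x => ?_, fun x y => ?_⟩
  · rw [h1 x, h1, h2, he.1]
  · rw [h1, h1]
    have h3 := he.2 (x - (t * B x u) • u) (y - (t * B y u) • u)
    have h4 : B (x - (t * B x u) • u) (y - (t * B y u) • u) = B x y := by
      simp only [map_sub, map_smul, LinearMap.sub_apply, LinearMap.smul_apply, smul_eq_mul, halt]
      rw [alt_symm halt u y]
      ring
    have h5 : ∀ a z : V, B (a + (t * B a u) • u) z = B a (z - (t * B z u) • u) := by
      intro a z
      rw [map_add, map_sub, LinearMap.add_apply, map_smul, map_smul, LinearMap.smul_apply,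
        smul_eq_mul, smul_eq_mul, alt_symm halt u z]
      ring
    have h6 : ∀ a z : V, B z (a + (t * B a u) • u) = B (z - (t * B z u) • u) a := by
      intro a z
      rw [map_add, map_sub, LinearMap.sub_apply, map_smul, map_smul, LinearMap.smul_apply,
        smul_eq_mul, smul_eq_mul, alt_symm halt u a]
      ring
    rw [h5, h6, h3, h4]

/-- The span of the differences of Lagrangian idempotents. -/
def Ds (B : V →ₗ[k] V →ₗ[k] k) : Submodule k (End k V) :=
  Submodule.span k {D | ∃ e e', Lag B e ∧ Lag B e' ∧ D = e - e'}

/-- The operators `x ↦ B(x, u) u` are combinations of differences of Lagrangian idempotents. -/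
theorem tv_mem [CharZero k] [FiniteDimensional k V] (halt : ∀ x, B x x = 0)
    (hnd : ∀ x, (∀ y, B x y = 0) → x = 0) (u : V) : tv B u ∈ Ds B := by
  obtain ⟨e, he⟩ := exists_lag _ V B halt hnd rfl
  -- the case `B (e u) u ≠ 0`
  have h1 : ∀ u, B (e u) u ≠ 0 → tv B u ∈ Ds B := by
    intro u hu
    have h2 := lag_conj halt he u 1
    have h3 := lag_conj halt he u (-1)
    have h4 : (-2 * B (e u) u) • tv B u =
        (e + (1 : k) • (tv B u * e - e * tv B u) - ((1 : k) * 1 * B (e u) u) • tv B u - e) +
        (e + (-1 : k) • (tv B u * e - e * tv B u) - ((-1 : k) * -1 * B (e u) u) • tv B u - e) := by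
      module
    have h5 : (-2 * B (e u) u) • tv B u ∈ Ds B := by
      rw [h4]
      exact Submodule.add_mem _ (Submodule.subset_span ⟨_, _, h2, he, rfl⟩)
        (Submodule.subset_span ⟨_, _, h3, he, rfl⟩)
    have h6 : (-2 * B (e u) u) ≠ 0 := mul_ne_zero (neg_ne_zero.2 two_ne_zero) hu
    have h7 := Submodule.smul_mem _ (-2 * B (e u) u)⁻¹ h5
    rwa [smul_smul, inv_mul_cancel₀ h6, one_smul] at h7
  by_cases hu0 : u = 0
  · rw [hu0]
    have h2 : tv B (0 : V) = 0 := by
      ext x
      rw [tv_apply, smul_zero, LinearMap.zero_apply]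
    rw [h2]
    exact Submodule.zero_mem _
  by_cases hu : B (e u) u = 0
  swap
  · exact h1 u hu
  -- there is a `w` with `B (e w) w ≠ 0`
  obtain ⟨w, hw⟩ : ∃ w, B (e w) w ≠ 0 := by
    by_contra hcon
    push Not at hcon
    have h2 : ∀ x y, B (e x) y = B x (e y) := by
      intro x y
      have h3 := hcon (x + y)
      simp only [map_add, LinearMap.add_apply, hcon] at h3
      rw [alt_symm halt x (e y)]
      linear_combination h3
    have h3 : ∀ x, 2 • e x = x := by
      intro x
      have h4 : (2 : ℕ) • e x - x = 0 := by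
        apply hnd
        intro y
        have h5 := he.2 x y
        rw [← h2] at h5
        rw [map_sub, LinearMap.sub_apply, map_nsmul, LinearMap.smul_apply, ← h5]
        module
      exact sub_eq_zero.1 h4
    have h4 := h3 u
    have h5 := h3 (e u)
    rw [he.1] at h5
    have h6 : e u = 0 := by
      have h7 : e u + e u = e u := by rw [← two_nsmul]; exact h5
      exact left_eq_add.1 h7.symm
    rw [h6, smul_zero] at h4
    exact hu0 h4.symm
  -- polarisation
  have hq : ∀ c : k, B (e (u + c • w)) (u + c • w) =
      c * (B (e u) w + B (e w) u) + c * c * B (e w) w := by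
    intro c
    simp only [map_add, map_smul, LinearMap.add_apply, LinearMap.smul_apply, smul_eq_mul, hu]
    ring
  obtain ⟨c, hc0, hc1, hc2⟩ : ∃ c : k, c ≠ 0 ∧ B (e (u + c • w)) (u + c • w) ≠ 0 ∧
      B (e (u + (-c) • w)) (u + (-c) • w) ≠ 0 := by
    set β := B (e u) w + B (e w) u with hβ
    set q := B (e w) w with hqd
    by_cases h2 : β * β = q * q
    · refine ⟨2, two_ne_zero, ?_, ?_⟩
      · rw [hq]
        intro h3
        have h4 : β = -2 * q := by
          have h5 : (2 : k) * (β + 2 * q) = 0 := by linear_combination h3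
          have h6 := (mul_eq_zero.1 h5).resolve_left two_ne_zero
          linear_combination h6
        rw [h4] at h2
        have h5 : (3 : k) * (q * q) = 0 := by linear_combination h2
        exact hw (mul_self_eq_zero.1 ((mul_eq_zero.1 h5).resolve_left three_ne_zero))
      · rw [hq]
        intro h3
        have h4 : β = 2 * q := by
          have h5 : (2 : k) * (β - 2 * q) = 0 := by linear_combination -h3
          have h6 := (mul_eq_zero.1 h5).resolve_left two_ne_zero
          linear_combination h6
        rw [h4] at h2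
        have h5 : (3 : k) * (q * q) = 0 := by linear_combination h2
        exact hw (mul_self_eq_zero.1 ((mul_eq_zero.1 h5).resolve_left three_ne_zero))
    · refine ⟨1, one_ne_zero, ?_, ?_⟩
      · rw [hq]
        intro h3
        apply h2
        have h4 : β = -q := by linear_combination h3
        rw [h4]
        ring
      · rw [hq]
        intro h3
        apply h2
        have h4 : β = q := by linear_combination -h3
        rw [h4]
  have h2 : (2 : k) • tv B u = tv B (u + c • w) + tv B (u + (-c) • w) - (2 * c * c) • tv B w := by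
    ext x
    simp only [LinearMap.sub_apply, LinearMap.add_apply, LinearMap.smul_apply, tv_apply, map_add,
      map_smul, smul_eq_mul]
    module
  have h3 : (2 : k) • tv B u ∈ Ds B := by
    rw [h2]
    exact Submodule.sub_mem _ (Submodule.add_mem _ (h1 _ hc1) (h1 _ hc2))
      (Submodule.smul_mem _ _ (h1 _ hw))
  have h4 := Submodule.smul_mem _ (2 : k)⁻¹ h3
  rwa [smul_smul, inv_mul_cancel₀ two_ne_zero, one_smul] at h4

end

end Pool.Agent.SpFFT
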