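import Pool.Agent.SpFFT.BaseC

/-!
# The first fundamental theorem for lattices
-/

set_option autoImplicit false
set_option linter.unusedSectionVars false

namespace Pool.Agent.SpFFT

open Module
open Pool.Agent.HTate (prodForm altForm)

variable {R K : Type} [CommRing R] [IsDomain R] [Field K] [Algebra R K]
  {S : Type} [Fintype S] [DecidableEq S]
  {M : S → Type} [∀ s, AddCommGroup (M s)] [∀ s, Module R (M s)] {ι : S → Type}
  [∀ s, Fintype (ι s)] [∀ s, DecidableEq (ι s)] (bs : ∀ s, Basis (ι s) R (M s))

include bs in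
/-- **The first fundamental theorem for lattices** over a domain, with values in a field which
embeds in the complex numbers. -/
theorem lat (hinj : Function.Injective (algebraMap R K)) (τ : K →+* ℂ)
    (e : ∀ s, M s →ₗ[R] M s →ₗ[R] R)
    (skew : ∀ s x y, e s x y = -e s y x) (nd : ∀ s x, (∀ y, e s x y = 0) → x = 0) {n j : ℕ}
    (F : (Fin n → ∀ s, M s) [⋀^Fin (2 * j)]→ₗ[R] K)
    (hF : ∀ s (u : M s) (v : Fin (2 * j) → Fin n → ∀ s, M s),
      ∑ i, F (Function.update v i fun a => Pi.single s (e s (v i a s) u • u)) = 0) :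
    (fun v => F v) ∈ Submodule.span K
      (Set.range fun κ v => algebraMap R K (altForm (j := j) (n := n) (fun s x y => e s x y) κ v))
    := by
  let aR : Algebra R ℂ := (τ.comp (algebraMap R K)).toAlgebra
  have haR : ∀ r : R, algebraMap R ℂ r = τ (algebraMap R K r) := fun r => rfl
  let aK : Algebra K ℂ := τ.toAlgebra
  have haK : ∀ r : K, algebraMap K ℂ r = τ r := fun r => rfl
  let T : K →ₗ[R] ℂ :=
    { toFun := τ
      map_add' := map_add τ
      map_smul' := fun r x => by
        rw [Algebra.smul_def, map_mul, RingHom.id_apply, Algebra.smul_def, haR] }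
  have hT : ∀ x, T x = τ x := fun x => rfl
  have hinj' : Function.Injective (algebraMap R ℂ) := by
    intro x y h
    rw [haR, haR] at h
    exact hinj (τ.injective h)
  obtain ⟨c, hc⟩ := base bs hinj' e skew nd (T.compAlternatingMap F) (by
    intro s u v
    have h1 := congrArg T (hF s u v)
    rw [map_sum, map_zero] at h1
    exact h1)
  obtain ⟨ρ, hρ⟩ := LinearMap.exists_leftInverse_of_injective (Algebra.linearMap K ℂ)
    (LinearMap.ker_eq_bot.2 τ.injective)
  have hρ' : ∀ x, ρ (τ x) = x := fun x => LinearMap.congr_fun hρ x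
  have h1 : (fun v => F v) = ∑ κ : Fin j → S × Fin n × Fin n,
      ρ (c κ) • fun v => algebraMap R K (altForm (fun s x y => e s x y) κ v) := by
    funext v
    rw [Finset.sum_apply, ← hρ' (F v)]
    have h2 := hc v
    change τ (F v) = _ at h2
    rw [h2, map_sum]
    refine Finset.sum_congr rfl fun κ _ => ?_
    rw [haR, ← haK, mul_comm, ← Algebra.smul_def, map_smul, smul_eq_mul, mul_comm]
    rfl
  rw [h1]
  exact Submodule.sum_mem _ fun κ _ => Submodule.smul_mem _ _
    (Submodule.subset_span ⟨κ, rfl⟩)

end Pool.Agent.SpFFT
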